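import Pool.Agent.H56.KAF.Stmts

/-!
# Second moments of mixtures of independent laws
-/

set_option autoImplicit false

namespace Pool.KAF

open Finset Real
open Pool.Agent.H49.Ent Pool.Agent.H32.Dense Pool.STK

section Indep

variable {I G : Type} [Fintype I] [DecidableEq I] [Fintype G]

lemma gsm_prod (ν : I → G → ℝ) (f : I → G → ℝ) :
    ∑ g : I → G, (∏ i, ν i (g i)) * ∏ i, f i (g i) = ∏ i, ∑ γ, ν i γ * f i γ := by
  classical
  have h := Finset.prod_univ_sum (fun _ : I => (univ : Finset G)) (fun i γ => ν i γ * f i γ)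
  rw [h, Fintype.piFinset_univ]
  refine Finset.sum_congr rfl fun g _ => ?_
  rw [← Finset.prod_mul_distrib]

lemma gsm_one (ν : I → G → ℝ) (hν : ∀ i, IsLaw (ν i)) (i : I) (h : G → ℝ) :
    ∑ g : I → G, (∏ k, ν k (g k)) * h (g i) = ∑ γ, ν i γ * h γ := by
  classical
  have h1 := gsm_prod ν (fun k γ => if k = i then h γ else 1)
  have h2 : ∀ g : I → G, ∏ k, (fun k γ => if k = i then h γ else 1) k (g k) = h (g i) := by
    intro g
    simp only
    rw [Finset.prod_eq_single i]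
    · simp
    · intro k _ hk
      rw [if_neg hk]
    · intro hh
      exact absurd (Finset.mem_univ i) hh
  rw [Finset.sum_congr rfl (fun g _ => by rw [h2 g]) (g := fun g => (∏ k, ν k (g k)) * h (g i))]
    at h1
  rw [h1, Finset.prod_eq_single i]
  · simp
  · intro k _ hk
    simp only [if_neg hk, mul_one]
    exact (hν k).sum_one
  · intro hh
    exact absurd (Finset.mem_univ i) hh

lemma gsm_two (ν : I → G → ℝ) (hν : ∀ i, IsLaw (ν i)) {i j : I} (hij : i ≠ j) (h h' : G → ℝ) :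
    ∑ g : I → G, (∏ k, ν k (g k)) * (h (g i) * h' (g j)) =
      (∑ γ, ν i γ * h γ) * ∑ γ, ν j γ * h' γ := by
  classical
  have h1 := gsm_prod ν (fun k γ => (if k = i then h γ else 1) * (if k = j then h' γ else 1))
  have h2 : ∀ g : I → G, ∏ k, (fun k γ => (if k = i then h γ else 1) *
      (if k = j then h' γ else 1)) k (g k) = h (g i) * h' (g j) := by
    intro g
    simp only
    rw [Finset.prod_mul_distrib]
    congr 1
    · rw [Finset.prod_eq_single i]
      · simp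
      · intro k _ hk
        rw [if_neg hk]
      · intro hh
        exact absurd (Finset.mem_univ i) hh
    · rw [Finset.prod_eq_single j]
      · simp
      · intro k _ hk
        rw [if_neg hk]
      · intro hh
        exact absurd (Finset.mem_univ j) hh
  rw [Finset.sum_congr rfl (fun g _ => by rw [h2 g])
    (g := fun g => (∏ k, ν k (g k)) * (h (g i) * h' (g j)))] at h1
  rw [h1]
  have h3 : ∀ k : I, ∑ γ, ν k γ * ((if k = i then h γ else 1) * (if k = j then h' γ else 1)) =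
      (if k = i then ∑ γ, ν i γ * h γ else 1) * (if k = j then ∑ γ, ν j γ * h' γ else 1) := by
    intro k
    by_cases hki : k = i
    · subst hki
      simp [hij]
    · by_cases hkj : k = j
      · subst hkj
        simp [hki]
      · simp only [if_neg hki, if_neg hkj, mul_one]
        exact (hν k).sum_one
  rw [Finset.prod_congr rfl (fun k _ => h3 k), Finset.prod_mul_distrib]
  congr 1
  · rw [Finset.prod_ite_eq' univ i]
    simp
  · rw [Finset.prod_ite_eq' univ j]
    simp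

lemma gsm_sq (ν : I → G → ℝ) (hν : ∀ i, IsLaw (ν i)) (c : I → ℝ) (hc : ∀ i, 0 ≤ c i)
    (k : I → G → ℝ) (hk : ∀ i g, 0 ≤ k i g) :
    ∑ g : I → G, (∏ i, ν i (g i)) * (∑ i, c i * k i (g i)) ^ 2 ≤
      ∑ i, c i ^ 2 * ∑ γ, ν i γ * k i γ ^ 2 + (∑ i, c i * ∑ γ, ν i γ * k i γ) ^ 2 := by
  classical
  have e1 : ∑ g : I → G, (∏ i, ν i (g i)) * (∑ i, c i * k i (g i)) ^ 2 =
      ∑ i, ∑ j, c i * c j * ∑ g : I → G, (∏ i, ν i (g i)) * (k i (g i) * k j (g j)) := by
    have h1 : ∀ g : I → G, (∏ i, ν i (g i)) * (∑ i, c i * k i (g i)) ^ 2 =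
        ∑ i, ∑ j, c i * c j * ((∏ i, ν i (g i)) * (k i (g i) * k j (g j))) := by
      intro g
      rw [sq, Finset.sum_mul_sum, Finset.mul_sum]
      refine Finset.sum_congr rfl fun i _ => ?_
      rw [Finset.mul_sum]
      refine Finset.sum_congr rfl fun j _ => ?_
      ring
    rw [Finset.sum_congr rfl fun g _ => h1 g, Finset.sum_comm]
    refine Finset.sum_congr rfl fun i _ => ?_
    rw [Finset.sum_comm]
    refine Finset.sum_congr rfl fun j _ => ?_
    rw [Finset.mul_sum]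
  have e2 : ∀ i j, c i * c j * ∑ g : I → G, (∏ i, ν i (g i)) * (k i (g i) * k j (g j)) ≤
      (if j = i then c i ^ 2 * ∑ γ, ν i γ * k i γ ^ 2 else 0) +
        (c i * ∑ γ, ν i γ * k i γ) * (c j * ∑ γ, ν j γ * k j γ) := by
    intro i j
    have hm : ∀ i, 0 ≤ c i * ∑ γ, ν i γ * k i γ := fun i =>
      mul_nonneg (hc i) (Finset.sum_nonneg fun γ _ => mul_nonneg ((hν i).nonneg γ) (hk i γ))
    by_cases hij : j = i
    · subst hij
      rw [if_pos rfl]
      have h1 := gsm_one ν hν j (fun γ => k j γ * k j γ)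
      rw [h1]
      have h2 : ∑ γ, ν j γ * (k j γ * k j γ) = ∑ γ, ν j γ * k j γ ^ 2 :=
        Finset.sum_congr rfl fun γ _ => by rw [sq]
      rw [h2, ← sq (c j)]
      have := mul_nonneg (hm j) (hm j)
      linarith
    · rw [if_neg hij, gsm_two ν hν (Ne.symm hij) (k i) (k j)]
      apply le_of_eq
      ring
  rw [e1]
  calc ∑ i, ∑ j, c i * c j * ∑ g : I → G, (∏ i, ν i (g i)) * (k i (g i) * k j (g j))
      ≤ ∑ i, ∑ j, ((if j = i then c i ^ 2 * ∑ γ, ν i γ * k i γ ^ 2 else 0) +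
        (c i * ∑ γ, ν i γ * k i γ) * (c j * ∑ γ, ν j γ * k j γ)) :=
        Finset.sum_le_sum fun i _ => Finset.sum_le_sum fun j _ => e2 i j
    _ = ∑ i, c i ^ 2 * ∑ γ, ν i γ * k i γ ^ 2 + (∑ i, c i * ∑ γ, ν i γ * k i γ) ^ 2 := by
        simp_rw [Finset.sum_add_distrib]
        rw [sq (∑ i, c i * ∑ γ, ν i γ * k i γ), Finset.sum_mul_sum]
        congr 1
        refine Finset.sum_congr rfl fun i _ => ?_
        rw [Finset.sum_ite_eq' univ i]
        simp

end Indep

theorem gsm_thm : GSMStmt := by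
  intro I G V _ _ _ F c ν K hc hν hK
  have h1 : ∀ a ∈ F, ∑ g : I → G, (∏ i, ν i (g i)) * (∑ i, c i * K i (g i) a) ^ 2 ≤
      ∑ i, c i ^ 2 * ∑ γ, ν i γ * K i γ a ^ 2 + (∑ i, c i * ∑ γ, ν i γ * K i γ a) ^ 2 :=
    fun a _ => gsm_sq ν hν c hc (fun i γ => K i γ a) (fun i γ => hK i γ a)
  have h2 : ∑ g : I → G, (∏ i, ν i (g i)) * ∑ a ∈ F, (∑ i, c i * K i (g i) a) ^ 2 =
      ∑ a ∈ F, ∑ g : I → G, (∏ i, ν i (g i)) * (∑ i, c i * K i (g i) a) ^ 2 := by
    simp_rw [Finset.mul_sum]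
    rw [Finset.sum_comm]
  have h3 : ∑ i, c i ^ 2 * ∑ γ, ν i γ * ∑ a ∈ F, K i γ a ^ 2 =
      ∑ a ∈ F, ∑ i, c i ^ 2 * ∑ γ, ν i γ * K i γ a ^ 2 := by
    simp_rw [Finset.mul_sum]
    rw [Finset.sum_comm]
    rw [Finset.sum_comm]
    refine Eq.symm ?_
    rw [Finset.sum_comm]
    refine Finset.sum_congr rfl fun i _ => ?_
    rw [Finset.sum_comm]
  rw [h2, h3, ← Finset.sum_add_distrib]
  exact Finset.sum_le_sum h1

end Pool.KAF
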