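import Pool.Agent.H56.KAF.Stmts

/-!
# Tails of the pointwise information
-/

set_option autoImplicit false

namespace Pool.KAF

open Finset Real
open Pool.Agent.H49.Ent Pool.Agent.H32.Dense Pool.STK

variable {Ω S T : Type} [Fintype Ω]

lemma tal_pos {p : Ω → ℝ} (hp : ∀ ω, 0 ≤ p ω) (A : Ω → S) (B : Ω → T) {ω : Ω} (h : 0 < p ω) :
    0 < cp p A B ω ∧ cp p A B ω ≤ 1 := by
  have h1 := law_pos hp (fun v => (A v, B v)) h
  have h2 := law_pos hp B h
  have h3 : law p (fun v => (A v, B v)) (A ω, B ω) ≤ law p B (B ω) :=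
    law_mono_of_det hp (X := fun v => (A v, B v)) (Y := B)
      (fun _ _ _ _ hh => (Prod.ext_iff.mp hh).2) h
  refine ⟨div_pos h1 h2, ?_⟩
  unfold cp
  rw [div_le_one h2]
  exact h3

lemma tal_card {p : Ω → ℝ} (hp : IsLaw p) (A : Ω → S) (F : Finset S) (hF : ∀ ω, A ω ∈ F) :
    (0 : ℝ) < F.card := by
  have h0 : ∃ ω, 0 < p ω := by
    by_contra hcon
    push Not at hcon
    have h1 : ∑ ω, p ω = 0 := Finset.sum_eq_zero fun ω _ => le_antisymm (hcon ω) (hp.nonneg ω)
    rw [hp.sum_one] at h1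
    exact one_ne_zero h1
  obtain ⟨ω, _⟩ := h0
  exact_mod_cast Finset.card_pos.mpr ⟨_, hF ω⟩

lemma tal_count {p : Ω → ℝ} (hp : IsLaw p) (A : Ω → S) (B : Ω → T) (F : Finset S)
    (hF : ∀ ω, A ω ∈ F) : ∑ ω, p ω * (cp p A B ω)⁻¹ ≤ F.card := by
  classical
  have e1 : ∑ ω, p ω * (cp p A B ω)⁻¹ =
      ∑ z ∈ univ.image (fun ω => (A ω, B ω)), law p (fun ω => (A ω, B ω)) z *
        (law p (fun ω => (A ω, B ω)) z / law p B z.2)⁻¹ :=
    sum_mul_eq_sum_image p (fun ω => (A ω, B ω))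
      (fun z => (law p (fun ω => (A ω, B ω)) z / law p B z.2)⁻¹)
  have e2 : ∀ z ∈ univ.image (fun ω => (A ω, B ω)), law p (fun ω => (A ω, B ω)) z *
      (law p (fun ω => (A ω, B ω)) z / law p B z.2)⁻¹ ≤ law p B z.2 := by
    intro z _
    by_cases h0 : law p (fun ω => (A ω, B ω)) z = 0
    · rw [h0, zero_mul]
      exact law_nonneg hp.nonneg _ _
    · rw [inv_div, mul_div_cancel₀ _ h0]
  have e3 : ∑ z ∈ univ.image (fun ω => (A ω, B ω)), law p B z.2 ≤
      ∑ z ∈ F ×ˢ (univ.image B), law p B z.2 := by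
    refine Finset.sum_le_sum_of_subset_of_nonneg ?_ ?_
    · intro z hz
      obtain ⟨ω, _, rfl⟩ := Finset.mem_image.mp hz
      exact Finset.mem_product.mpr ⟨hF ω, Finset.mem_image_of_mem _ (Finset.mem_univ _)⟩
    · intro z _ _
      exact law_nonneg hp.nonneg _ _
  have e4 : ∑ z ∈ F ×ˢ (univ.image B), law p B z.2 = F.card := by
    rw [Finset.sum_product]
    simp only
    rw [Finset.sum_const, sum_law, hp.sum_one, nsmul_eq_mul, mul_one]
  rw [e1]
  exact (Finset.sum_le_sum e2).trans (e3.trans e4.le)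

lemma tal_log {p : Ω → ℝ} (hp : IsLaw p) (A : Ω → S) (B : Ω → T) (F : Finset S)
    (hF : ∀ ω, A ω ∈ F) {ω : Ω} (h : 0 < p ω) :
    ci p A B ω - Real.log F.card = Real.log ((cp p A B ω)⁻¹ * (F.card : ℝ)⁻¹) := by
  have h1 := (tal_pos hp.nonneg A B h).1
  have h2 := tal_card hp A F hF
  unfold ci
  rw [Real.log_mul (inv_ne_zero h1.ne') (inv_ne_zero h2.ne'), Real.log_inv, Real.log_inv]
  ring

theorem tal_thm : TALStmt := by
  intro Ω S T _ p A B F hp hF
  classical
  have hc := tal_card hp A F hF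
  have hcount := tal_count hp A B F hF
  refine ⟨fun ω h => tal_pos hp.nonneg A B h, ?_, ?_, ?_⟩
  · rw [CH_eq_neg_sum hp.nonneg]
    rfl
  · intro s
    have h1 : Pr p {ω | Real.log F.card + s < ci p A B ω} ≤
        ∑ ω, p ω * (cp p A B ω)⁻¹ * ((F.card : ℝ)⁻¹ * Real.exp (-s)) := by
      unfold Pr law
      refine Finset.sum_le_sum fun ω _ => ?_
      rcases (hp.nonneg ω).eq_or_lt with h0 | h0
      · rw [← h0]
        simp
      · have hcp := (tal_pos hp.nonneg A B h0).1
        split_ifs with h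
        · have h2 : Real.log F.card + s < ci p A B ω := by
            have h3 : ω ∈ {ω | Real.log F.card + s < ci p A B ω} := of_eq_true h
            exact h3
          have h4 := tal_log hp A B F hF h0
          have h5 : s < Real.log ((cp p A B ω)⁻¹ * (F.card : ℝ)⁻¹) := by
            rw [← h4]
            linarith
          have h6 : Real.exp s < (cp p A B ω)⁻¹ * (F.card : ℝ)⁻¹ := by
            rw [Real.lt_log_iff_exp_lt (mul_pos (inv_pos.mpr hcp) (inv_pos.mpr hc))] at h5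
            exact h5
          have h7 : 1 ≤ (cp p A B ω)⁻¹ * ((F.card : ℝ)⁻¹ * Real.exp (-s)) := by
            rw [← mul_assoc, Real.exp_neg, ← div_eq_mul_inv, one_le_div (Real.exp_pos s)]
            exact h6.le
          rw [mul_assoc]
          nlinarith
        · have h8 := Real.exp_pos (-s)
          positivity
    refine h1.trans ?_
    rw [← Finset.sum_mul]
    have h9 := mul_le_mul_of_nonneg_right hcount
      (mul_nonneg (inv_nonneg.mpr hc.le) (Real.exp_pos (-s)).le)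
    refine h9.trans ?_
    rw [← mul_assoc, mul_inv_cancel₀ hc.ne', one_mul]
  · have h1 : Ex p (fun ω => max 0 (ci p A B ω - Real.log F.card)) ≤
        Ex p (fun ω => (cp p A B ω)⁻¹ * (F.card : ℝ)⁻¹) := by
      refine Ex_mono hp.nonneg fun ω h0 => ?_
      have hcp := (tal_pos hp.nonneg A B h0).1
      have hy : 0 < (cp p A B ω)⁻¹ * (F.card : ℝ)⁻¹ := mul_pos (inv_pos.mpr hcp) (inv_pos.mpr hc)
      refine max_le hy.le ?_
      rw [tal_log hp A B F hF h0]
      have := Real.log_le_sub_one_of_pos hy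
      linarith
    refine h1.trans ?_
    have h2 : Ex p (fun ω => (cp p A B ω)⁻¹ * (F.card : ℝ)⁻¹) =
        (∑ ω, p ω * (cp p A B ω)⁻¹) * (F.card : ℝ)⁻¹ := by
      unfold Ex
      rw [Finset.sum_mul]
      exact Finset.sum_congr rfl fun ω _ => by ring
    rw [h2, ← div_eq_mul_inv, div_le_one hc]
    exact hcount

end Pool.KAF
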